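import Pool.Agent.N627.ND.Stm

/-!
# Project ND (helper627): deletion of vertices and plain types (helper123)
-/

set_option autoImplicit false

namespace Pool.Agent.N123.ND

open Pool.Agent.N627.ND

variable {V K : Type}

lemma down {G : SimpleGraph V} {κ : V → K} {n : ℕ} {z z' : Fin n → V} (j : ℕ)
    (h : O G κ j n z = O G κ j n z') : O G κ 0 n z = O G κ 0 n z' := by
  induction j with
  | zero => exact h
  | succ j ih => exact ih (congrArg Prod.fst h)

lemma col {G : SimpleGraph V} {κ : V → K} {n : ℕ} {z z' : Fin n → V} (j : ℕ)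
    (h : O G κ j n z = O G κ j n z') (i : Fin n) : κ (z i) = κ (z' i) :=
  congrFun (congrArg Prod.fst (down j h)) i

lemma adj_iff (H : SimpleGraph V) (x y : V) : H.Adj x y ↔ x ≠ y ∧ H.edist x y ≤ (1 : ℕ) := by
  constructor
  · intro h
    exact ⟨h.ne, (SimpleGraph.edist_eq_one_iff_adj.2 h).le⟩
  · rintro ⟨h1, h2⟩
    rw [← SimpleGraph.edist_eq_one_iff_adj]
    have h3 : H.edist x y ≠ 0 := fun h => h1 (SimpleGraph.edist_eq_zero_iff.1 h)
    refine le_antisymm (by exact_mod_cast h2) ?_
    exact ENat.one_le_iff_ne_zero.2 h3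

section

variable {H : SimpleGraph V} {κ : V → K} {s : ℕ} {w : Fin s → V} {E : ℕ}

lemma dist_col {x x' : V} (h : κD H κ w E x = κD H κ w E x') (a : Fin s) {e : ℕ} (he : e ≤ E)
    (hx : H.edist x (w a) ≤ e) : H.edist x' (w a) ≤ e := by
  have h1 := congrFun (congrFun (congrArg (fun p => p.2.2) h) a) ⟨e, Nat.lt_succ_of_le he⟩
  exact (Eq.mp h1 hx)

lemma eq_col {x x' : V} (h : κD H κ w E x = κD H κ w E x') (a : Fin s) (hx : x = w a) :
    x' = w a := by
  have h1 := congrFun (congrArg (fun p => p.2.1) h) a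
  exact (Eq.mp h1 hx)

lemma adj_one (hE : 1 ≤ E) {n : ℕ} {z z' : Fin n → V}
    (h : O (del H w) (κD H κ w E) 0 n z = O (del H w) (κD H κ w E) 0 n z') (i k : Fin n)
    (hik : H.Adj (z i) (z k)) : H.Adj (z' i) (z' k) := by
  have hc := col 0 h
  have he : ∀ i k, (z i = z k) = (z' i = z' k) := fun i k =>
    congrFun (congrFun (congrArg (fun p => p.2.1) h) i) k
  have ha : ∀ i k, (del H w).Adj (z i) (z k) = (del H w).Adj (z' i) (z' k) := fun i k =>
    congrFun (congrFun (congrArg (fun p => p.2.2) h) i) k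
  have one : ∀ i k a, z i = w a → H.Adj (z i) (z k) → H.Adj (z' i) (z' k) := by
    intro i k a hi hik
    have h1 := eq_col (hc i) a hi
    obtain ⟨h2, h3⟩ := (adj_iff H _ _).1 hik
    refine (adj_iff H _ _).2 ⟨fun h4 => h2 (Eq.mpr (he i k) h4), ?_⟩
    rw [hi, SimpleGraph.edist_comm] at h3
    rw [h1, SimpleGraph.edist_comm]
    exact dist_col (hc k) a hE h3
  by_cases h1 : ∃ a, z i = w a
  · obtain ⟨a, h1⟩ := h1
    exact one i k a h1 hik
  · by_cases h2 : ∃ a, z k = w a
    · obtain ⟨a, h2⟩ := h2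
      exact (one k i a h2 hik.symm).symm
    · push Not at h1 h2
      have h3 : (del H w).Adj (z i) (z k) := ⟨hik, h1, h2⟩
      exact (Eq.mp (ha i k) h3).1

lemma main (hDD : S_DD) : ∀ j, 6 ^ j ≤ E → ∀ (n : ℕ) (z z' : Fin n → V),
    O (del H w) (κD H κ w E) j n z = O (del H w) (κD H κ w E) j n z' →
    O H κ j n z = O H κ j n z' := by
  intro j
  induction j with
  | zero =>
    intro hE n z z' h
    have hE1 : 1 ≤ E := by simpa using hE
    have hc := col 0 h
    refine Prod.ext ?_ (Prod.ext ?_ ?_)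
    · funext i
      exact congrArg Prod.fst (hc i)
    · exact congrArg (fun p => p.2.1) h
    · funext i k
      exact propext ⟨adj_one hE1 h i k, adj_one hE1 h.symm i k⟩
  | succ j ih =>
    intro hE n z z' h
    have hE' : 6 ^ j ≤ E := le_trans (Nat.pow_le_pow_right (by norm_num) (Nat.le_succ j)) hE
    have step : ∀ z z' : Fin n → V,
        O (del H w) (κD H κ w E) (j + 1) n z = O (del H w) (κD H κ w E) (j + 1) n z' →
        ∀ b, ∃ b', dpat H (6 ^ (j + 1)) z b = dpat H (6 ^ (j + 1)) z' b' ∧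
          O H κ j (n + 1) (ap z b) = O H κ j (n + 1) (ap z' b') := by
      intro z z' h b
      have h2 := congrArg Prod.snd h
      have h3 : (dpat (del H w) (6 ^ (j + 1)) z b,
          O (del H w) (κD H κ w E) j (n + 1) (ap z b)) ∈
          (O (del H w) (κD H κ w E) (j + 1) n z).2 := ⟨b, rfl⟩
      rw [h2] at h3
      obtain ⟨b', hb'⟩ := h3
      have e1 := congrArg Prod.fst hb'
      have e2 := congrArg Prod.snd hb'
      simp only at e1 e2
      refine ⟨b', ?_, ih hE' _ _ _ e2⟩
      have hc := col j e2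
      have hci : ∀ i, κD H κ w E (z i) = κD H κ w E (z' i) := by
        intro i
        have := hc (Fin.castSucc i)
        unfold ap at this
        rwa [Fin.snoc_castSucc, Fin.snoc_castSucc] at this
      have hcb : κD H κ w E b = κD H κ w E b' := by
        have := hc (Fin.last n)
        unfold ap at this
        rwa [Fin.snoc_last, Fin.snoc_last] at this
      have one : ∀ (x x' b b' : V) (e : ℕ), e ≤ 6 ^ (j + 1) → κD H κ w E x = κD H κ w E x' →
          κD H κ w E b = κD H κ w E b' →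
          ((del H w).edist x b ≤ e → (del H w).edist x' b' ≤ e) → H.edist x b ≤ e →
          H.edist x' b' ≤ e := by
        intro x x' b b' e he hx hb hd h4
        rw [hDD V H s w] at h4 ⊢
        rcases h4 with h4 | ⟨a, e1, e2, h5, h6, h7⟩
        · exact Or.inl (hd h4)
        · exact Or.inr ⟨a, e1, e2, h5, dist_col hx a (by omega) h6, dist_col hb a (by omega) h7⟩
      funext i e
      have e3 := congrFun (congrFun e1 i) e
      have he : (e : ℕ) ≤ 6 ^ (j + 1) := Nat.le_of_lt_succ e.2
      exact propext ⟨one _ _ _ _ e he (hci i) hcb (fun h => Eq.mp e3 h),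
        one _ _ _ _ e he (hci i).symm hcb.symm (fun h => Eq.mpr e3 h)⟩
    refine Prod.ext (ih hE' n z z' (congrArg Prod.fst h)) ?_
    show {p | ∃ b, p = (dpat H (6 ^ (j + 1)) z b, O H κ j (n + 1) (ap z b))} =
      {p | ∃ b, p = (dpat H (6 ^ (j + 1)) z' b, O H κ j (n + 1) (ap z' b))}
    ext p
    constructor
    · rintro ⟨b, rfl⟩
      obtain ⟨b', h1, h2⟩ := step z z' h b
      exact ⟨b', by rw [h1, h2]⟩
    · rintro ⟨b, rfl⟩
      obtain ⟨b', h1, h2⟩ := step z' z h.symm b
      exact ⟨b', by rw [h1, h2]⟩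

end

theorem de (hDD : S_DD) : S_DE := by
  intro V K H κ s w E q n hE z z' h
  exact main hDD q hE n z z' h

end Pool.Agent.N123.ND
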